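import Pool.Agent.PT.Arith

/-!
# Options, sums, integers, finite types, subtypes; more list functions
-/

namespace Pool.Agent.PT

variable {α β γ δ ε : Type*} [Enc α] [Enc β] [Enc γ] [Enc δ] [Enc ε]

/-- Encoding through an injection. -/
@[reducible] def Enc.ofInj {α β : Type*} [Enc β] (f : α → β) (hf : Function.Injective f) :
    Enc α := ⟨fun x => Enc.toD (f x), fun _ _ h => hf (Enc.inj h)⟩

/-! ### Fin, subtypes -/

instance instEncFin (n : ℕ) : Enc (Fin n) := Enc.ofInj (fun i => i.val) Fin.val_injective

instance instEncSubtype (P : α → Prop) : Enc {x // P x} :=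
  Enc.ofInj (fun x => x.val) Subtype.val_injective

@[fun_prop]
theorem PolyTime.finVal {n : ℕ} {f : α → Fin n} (hf : PolyTime f) :
    PolyTime (fun x => (f x).val) := hf.congr_toD fun _ => rfl

theorem PolyTime.toFin {n : ℕ} {f : α → Fin n} (hf : PolyTime (fun x => (f x).val)) :
    PolyTime f := hf.congr_toD fun _ => rfl

@[fun_prop]
theorem PolyTime.subtypeVal {P : β → Prop} {f : α → {x // P x}} (hf : PolyTime f) :
    PolyTime (fun x => (f x).val) := hf.congr_toD fun _ => rfl

theorem PolyTime.toSubtype {P : β → Prop} {f : α → {x // P x}}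
    (hf : PolyTime (fun x => (f x).val)) : PolyTime f := hf.congr_toD fun _ => rfl

/-! ### Option -/

/-- tree code of an option -/
def optD : Option α → Dt
  | none => .nil
  | some x => .cons .nil (Enc.toD x)

instance instEncOption : Enc (Option α) := ⟨optD, by
  intro x y h
  cases x <;> cases y <;> simp [optD] at h ⊢
  exact Enc.inj h⟩

@[simp] theorem toD_none : Enc.toD (none : Option α) = .nil := rfl
@[simp] theorem toD_some (x : α) : Enc.toD (some x) = .cons .nil (Enc.toD x) := rfl

@[simp] theorem sz_none : sz (none : Option α) = 1 := rfl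
@[simp] theorem sz_some (x : α) : sz (some x) = sz x + 2 := by
  simp [sz, code]

@[fun_prop]
theorem PolyTime.some {f : α → β} (hf : PolyTime f) : PolyTime (fun x => Option.some (f x)) :=
  (PolyTime.pair (PolyTime.const ()) hf).congr_toD fun _ => rfl

theorem PolyTime.optionCases {o : α → Option β} {f : α → γ} {g : α → β → γ}
    (ho : PolyTime o) (hf : PolyTime f) (hg : PolyTime (fun p : α × β => g p.1 p.2)) :
    PolyTime (fun x => Option.casesOn (motive := fun _ => γ) (o x) (f x) (g x)) := by
  refine PolyTime.branch (γ := Option β) (δ := Unit × β) (t := o) (f := f)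
    (g := fun p => g p.1 p.2.2) ho hf ?_ fun x => ?_
  · exact hg.comp (PolyTime.fst'.pair (PolyTime.snd'.comp PolyTime.snd'))
  · cases h : o x
    · left; exact ⟨rfl, rfl⟩
    · right; exact ⟨((), _), rfl, by simp, rfl⟩

@[fun_prop]
theorem PolyTime.isSome {o : α → Option β} (ho : PolyTime o) : PolyTime (fun x => (o x).isSome) :=
  (PolyTime.optionCases ho (PolyTime.const false) (g := fun _ _ => true)
    (by fun_prop)).congr fun x => by cases o x <;> rfl

@[fun_prop]
theorem PolyTime.isNone {o : α → Option β} (ho : PolyTime o) : PolyTime (fun x => (o x).isNone) :=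
  (PolyTime.optionCases ho (PolyTime.const true) (g := fun _ _ => false)
    (by fun_prop)).congr fun x => by cases o x <;> rfl

@[fun_prop]
theorem PolyTime.optionGetD {o : α → Option β} {f : α → β} (ho : PolyTime o) (hf : PolyTime f) :
    PolyTime (fun x => (o x).getD (f x)) :=
  (PolyTime.optionCases ho hf (g := fun _ b => b)
    (by fun_prop)).congr fun x => by cases o x <;> rfl

theorem PolyTime.optionMap {o : α → Option β} {g : α → β → γ} (ho : PolyTime o)
    (hg : PolyTime (fun p : α × β => g p.1 p.2)) : PolyTime (fun x => (o x).map (g x)) :=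
  (PolyTime.optionCases ho (PolyTime.const none) (g := fun x b => Option.some (g x b))
    (by fun_prop)).congr fun x => by cases o x <;> rfl

theorem PolyTime.optionBind {o : α → Option β} {g : α → β → Option γ} (ho : PolyTime o)
    (hg : PolyTime (fun p : α × β => g p.1 p.2)) : PolyTime (fun x => (o x).bind (g x)) :=
  (PolyTime.optionCases ho (PolyTime.const none) (g := g)
    hg).congr fun x => by cases o x <;> rfl

/-! ### Sum -/

/-- tree code of a sum -/
def sumD : α ⊕ β → Dt
  | .inl x => .cons .nil (Enc.toD x)
  | .inr y => .cons (.cons .nil .nil) (Enc.toD y)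

instance instEncSum : Enc (α ⊕ β) := ⟨sumD, by
  intro x y h
  cases x <;> cases y <;> simp [sumD] at h ⊢
  all_goals exact Enc.inj h⟩

@[simp] theorem toD_inl (x : α) : Enc.toD (Sum.inl x : α ⊕ β) = .cons .nil (Enc.toD x) := rfl
@[simp] theorem toD_inr (y : β) :
    Enc.toD (Sum.inr y : α ⊕ β) = .cons (.cons .nil .nil) (Enc.toD y) := rfl

@[fun_prop]
theorem PolyTime.inl {f : α → β} (hf : PolyTime f) :
    PolyTime (fun x => (Sum.inl (f x) : β ⊕ γ)) :=
  (PolyTime.pair (PolyTime.const false) hf).congr_toD fun _ => rfl

@[fun_prop]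
theorem PolyTime.inr {f : α → γ} (hf : PolyTime f) :
    PolyTime (fun x => (Sum.inr (f x) : β ⊕ γ)) :=
  (PolyTime.pair (PolyTime.const true) hf).congr_toD fun _ => rfl

@[fun_prop]
theorem PolyTime.isRight {o : α → β ⊕ γ} (ho : PolyTime o) :
    PolyTime (fun x => (o x).isRight) := by
  refine PolyTime.comp (g := fun s : β ⊕ γ => s.isRight) (PolyTime.of_fst fun s => ?_) ho
  cases s with
  | inl x => exact ⟨_, rfl⟩
  | inr y => exact ⟨_, rfl⟩

/-- The content of a sum, as a tree. -/
theorem PolyTime.sumContent {o : α → β ⊕ γ} (ho : PolyTime o) :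
    PolyTime (fun x => (Sum.elim Enc.toD Enc.toD (o x) : Dt)) := by
  refine PolyTime.comp (g := fun s : β ⊕ γ => (Sum.elim Enc.toD Enc.toD s : Dt))
    (PolyTime.of_snd fun s => ?_) ho
  cases s with
  | inl x => exact ⟨_, rfl⟩
  | inr y => exact ⟨_, rfl⟩

/-- A conditional in which each branch has its own input type: if `t x`, then the branch `q`
is run on `v x`, otherwise the branch `p` is run on `u x`; both inputs have the same tree code
as `w x`. -/
theorem PolyTime.condTyped {t : α → Bool} {w : α → δ} {h : α → ε}
    {f : β → ε} {g : γ → ε} (ht : PolyTime t) (hw : PolyTime w) (hf : PolyTime f)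
    (hg : PolyTime g)
    (H : ∀ x, (t x = false ∧ ∃ y : β, Enc.toD y = Enc.toD (w x) ∧ h x = f y) ∨
      (t x = true ∧ ∃ y : γ, Enc.toD y = Enc.toD (w x) ∧ h x = g y)) : PolyTime h := by
  have hbt := ht.pbdd
  have hbw := hw.pbdd
  have hpair : PolyTime (fun x => (t x, w x)) := by fun_prop
  have hbp := hpair.pbdd
  obtain ⟨p, P, hp⟩ := hpair
  obtain ⟨q, Q, hq⟩ := hf
  obtain ⟨r, R, hr⟩ := hg
  refine PolyTime.mk (.seq p (.case .A .skip .skip (.case .A .skip q
      (.case .A .skip (.case .A .skip r .skip) .skip))))
    (s := fun x => P.eval (sz x) + (Q.eval (sz (w x)) + R.eval (sz (w x)) + 4) + 1)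
    ?_ fun x a b c d => ?_
  · have h1 := (PBdd.size (α := α)).eval P
    have h2 := hbw.eval Q
    have h3 := hbw.eval R
    fun_prop
  · have h1 := hp x a b c d
    rcases H x with ⟨htx, y, hy, hh⟩ | ⟨htx, y, hy, hh⟩
    · have e1 : code y = code (w x) := by rw [code, code, hy]
      have e2 : sz y = sz (w x) := by rw [sz, sz, e1]
      have e3 : code (t x, w x) ++ a = true :: false :: (code y ++ a) := by
        rw [code_prod, htx, e1]
        rfl
      rw [e3] at h1
      have h2 := hq y a b c d
      have h3 : Exec (.case .A .skip .skip (.case .A .skip q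
        (.case .A .skip (.case .A .skip r .skip) .skip)))
        ⟨true :: false :: (code y ++ a), b, c, d⟩ ⟨code (f y) ++ a, b, c, d⟩
        (Q.eval (sz y) + 1 + 1) := Exec.caseTrue rfl (Exec.caseFalse rfl h2)
      rw [hh]
      refine (h1.seq h3).mono ?_
      rw [e2]
      omega
    · have e1 : code y = code (w x) := by rw [code, code, hy]
      have e2 : sz y = sz (w x) := by rw [sz, sz, e1]
      have e3 : code (t x, w x) ++ a = true :: true :: false :: false :: (code y ++ a) := by
        rw [code_prod, htx, e1]
        rfl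
      rw [e3] at h1
      have h2 := hr y a b c d
      have h3 : Exec (.case .A .skip .skip (.case .A .skip q
        (.case .A .skip (.case .A .skip r .skip) .skip)))
        ⟨true :: true :: false :: false :: (code y ++ a), b, c, d⟩ ⟨code (g y) ++ a, b, c, d⟩
        (R.eval (sz y) + 1 + 1 + 1 + 1) :=
        Exec.caseTrue rfl (Exec.caseTrue rfl (Exec.caseFalse rfl (Exec.caseFalse rfl h2)))
      rw [hh]
      refine (h1.seq h3).mono ?_
      rw [e2]
      omega

theorem PolyTime.sumCases {o : α → β ⊕ γ} {f : α → β → δ} {g : α → γ → δ}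
    (ho : PolyTime o) (hf : PolyTime (fun p : α × β => f p.1 p.2))
    (hg : PolyTime (fun p : α × γ => g p.1 p.2)) :
    PolyTime (fun x => Sum.casesOn (motive := fun _ => δ) (o x) (f x) (g x)) := by
  refine PolyTime.condTyped (t := fun x => (o x).isRight)
    (w := fun x => (x, (Sum.elim Enc.toD Enc.toD (o x) : Dt))) (by fun_prop)
    (PolyTime.id.pair ho.sumContent) hf hg fun x => ?_
  cases h : o x with
  | inl y => left; exact ⟨rfl, (x, y), by simp; rfl, rfl⟩
  | inr y => right; exact ⟨rfl, (x, y), by simp; rfl, rfl⟩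

/-! ### Integers -/

/-- integers as tagged naturals -/
def intSum : ℤ → ℕ ⊕ ℕ
  | .ofNat n => .inl n
  | .negSucc n => .inr n

theorem intSum_inj : Function.Injective intSum := by
  intro x y h
  cases x <;> cases y <;> simp_all [intSum]

instance instEncInt : Enc ℤ := Enc.ofInj intSum intSum_inj

theorem PolyTime.intSum {f : α → ℤ} (hf : PolyTime f) :
    PolyTime (fun x => PT.intSum (f x)) := hf.congr_toD fun _ => rfl

@[fun_prop]
theorem PolyTime.natCastInt {f : α → ℕ} (hf : PolyTime f) : PolyTime (fun x => (f x : ℤ)) :=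
  (PolyTime.inl (γ := ℕ) hf).congr_toD fun _ => rfl

@[fun_prop]
theorem PolyTime.negSucc {f : α → ℕ} (hf : PolyTime f) :
    PolyTime (fun x => Int.negSucc (f x)) :=
  (PolyTime.inr (β := ℕ) hf).congr_toD fun _ => rfl

theorem PolyTime.intCases {o : α → ℤ} {f : α → ℕ → δ} {g : α → ℕ → δ}
    (ho : PolyTime o) (hf : PolyTime (fun p : α × ℕ => f p.1 p.2))
    (hg : PolyTime (fun p : α × ℕ => g p.1 p.2)) :
    PolyTime (fun x => Int.casesOn (motive := fun _ => δ) (o x) (f x) (g x)) :=
  (PolyTime.sumCases ho.intSum hf hg).congr fun x => by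
    cases o x <;> rfl

@[fun_prop]
theorem PolyTime.toNat {f : α → ℤ} (hf : PolyTime f) : PolyTime (fun x => (f x).toNat) :=
  (PolyTime.intCases hf (f := fun _ n => n) (g := fun _ _ => 0) (by fun_prop)
    (by fun_prop)).congr fun x => by cases f x <;> rfl

@[fun_prop]
theorem PolyTime.natAbs {f : α → ℤ} (hf : PolyTime f) : PolyTime (fun x => (f x).natAbs) :=
  (PolyTime.intCases hf (f := fun _ n => n) (g := fun _ n => n + 1) (by fun_prop)
    (by fun_prop)).congr fun x => by cases f x <;> rfl

/-- subtraction of naturals with integer result -/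
@[fun_prop]
theorem PolyTime.subNat {f g : α → ℕ} (hf : PolyTime f) (hg : PolyTime g) :
    PolyTime (fun x => (f x : ℤ) - (g x : ℤ)) := by
  have h : PolyTime (fun x => if g x ≤ f x then ((f x - g x : ℕ) : ℤ)
      else Int.negSucc (g x - f x - 1)) :=
    PolyTime.ite (by fun_prop) (by fun_prop) (by fun_prop)
  refine h.congr fun x => ?_
  split_ifs with h
  · omega
  · omega

@[fun_prop]
theorem PolyTime.intNeg {f : α → ℤ} (hf : PolyTime f) : PolyTime (fun x => -(f x)) := by
  refine (PolyTime.intCases hf (f := fun _ n => ((0 : ℕ) : ℤ) - (n : ℤ))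
    (g := fun _ n => ((n + 1 : ℕ) : ℤ)) (by fun_prop) (by fun_prop)).congr fun x => ?_
  cases f x with
  | ofNat n => simp
  | negSucc n => simp [Int.neg_negSucc]

@[fun_prop]
theorem PolyTime.intAdd {f g : α → ℤ} (hf : PolyTime f) (hg : PolyTime g) :
    PolyTime (fun x => f x + g x) := by
  have h : PolyTime (fun x => (((f x).toNat + (g x).toNat : ℕ) : ℤ) -
      (((-(f x)).toNat + (-(g x)).toNat : ℕ) : ℤ)) := by fun_prop
  refine h.congr fun x => ?_
  omega

@[fun_prop]
theorem PolyTime.intSub {f g : α → ℤ} (hf : PolyTime f) (hg : PolyTime g) :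
    PolyTime (fun x => f x - g x) := (hf.intAdd hg.intNeg).congr fun x => by ring

@[fun_prop]
theorem PolyTime.intMul {f g : α → ℤ} (hf : PolyTime f) (hg : PolyTime g) :
    PolyTime (fun x => f x * g x) := by
  have h : PolyTime (fun x =>
      (((f x).toNat * (g x).toNat + (-(f x)).toNat * (-(g x)).toNat : ℕ) : ℤ) -
      (((f x).toNat * (-(g x)).toNat + (-(f x)).toNat * (g x).toNat : ℕ) : ℤ)) := by fun_prop
  refine h.congr fun x => ?_
  have e1 : f x = ((f x).toNat : ℤ) - ((-(f x)).toNat : ℤ) := by omega
  have e2 : g x = ((g x).toNat : ℤ) - ((-(g x)).toNat : ℤ) := by omega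
  conv_lhs => rw [e1, e2]
  push_cast
  ring

@[fun_prop]
theorem PolyTime.decide_int_le {f g : α → ℤ} (hf : PolyTime f) (hg : PolyTime g) :
    PolyTime (fun x => decide (f x ≤ g x)) :=
  ((hf.intSub hg).toNat.decide_eq (PolyTime.const 0)).congr fun x => by
    have : (f x ≤ g x) ↔ (f x - g x).toNat = 0 := by omega
    simp only [this]

@[fun_prop]
theorem PolyTime.decide_int_lt {f g : α → ℤ} (hf : PolyTime f) (hg : PolyTime g) :
    PolyTime (fun x => decide (f x < g x)) :=
  (PolyTime.decide_int_le (hf.intAdd (PolyTime.const 1)) hg).congr fun _ => rfl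

/-! ### Finite types -/

/-- Every function on a finite type is polynomial time. -/
theorem PolyTime.of_finite [Finite β] (f : β → γ) : PolyTime f := by
  classical
  have key : ∀ l : List β, ∃ g : β → γ, PolyTime g ∧ ∀ y ∈ l, g y = f y := by
    intro l
    induction l with
    | nil =>
      by_cases hn : Nonempty γ
      · obtain ⟨c⟩ := hn
        exact ⟨fun _ => c, by fun_prop, by simp⟩
      · refine ⟨f, ⟨.skip, 1, fun x => (hn ⟨f x⟩).elim⟩, by simp⟩
    | cons z l ih =>
      obtain ⟨g, hg, hgl⟩ := ih
      refine ⟨fun y => if y = z then f z else g y,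
        PolyTime.ite (by fun_prop) (by fun_prop) hg, fun y hy => ?_⟩
      by_cases h : y = z
      · simp [h]
      · simp only [h, if_false]
        exact hgl y (by simpa [h] using hy)
  obtain ⟨l, hl⟩ := Finite.exists_univ_list β
  obtain ⟨g, hg, hgl⟩ := key l
  exact hg.congr fun y => (hgl y (hl.2 y)).symm

/-- Applying an arbitrary function on a finite type. -/
theorem PolyTime.finite_comp [Finite β] (g : β → γ) {f : α → β} (hf : PolyTime f) :
    PolyTime (fun x => g (f x)) := (PolyTime.of_finite g).comp hf

/-! ### More list functions -/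

theorem PolyTime.foldr {l : α → List β} {g : α → β → γ → γ} {y : α → γ}
    (hl : PolyTime l) (hg : PolyTime (fun p : α × (β × γ) => g p.1 p.2.1 p.2.2))
    (hy : PolyTime y) {s : α → ℕ} (hs : PBdd s)
    (hb : ∀ x i, sz (((l x).drop i).foldr (g x) (y x)) ≤ s x) :
    PolyTime (fun x => (l x).foldr (g x) (y x)) := by
  have h1 := hy.pbdd
  refine (PolyTime.foldl (l := fun x => (l x).reverse) (g := fun x c b => g x b c) (y := y)
    hl.reverse (by fun_prop) hy hs fun x i => ?_).congr fun x => ?_
  · have : ((l x).reverse.take i) = ((l x).drop ((l x).length - i)).reverse := by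
      rw [List.take_reverse]
    rw [this, List.foldl_reverse]
    exact hb x _
  · rw [List.foldl_reverse]

theorem PolyTime.foldr_add {l : α → List β} {g : α → β → γ → γ} {y : α → γ}
    (hl : PolyTime l) (hg : PolyTime (fun p : α × (β × γ) => g p.1 p.2.1 p.2.2))
    (hy : PolyTime y) {s : α → ℕ} (hs : PBdd s)
    (hb : ∀ x, ∀ b ∈ l x, ∀ c, sz (g x b c) ≤ sz c + s x) :
    PolyTime (fun x => (l x).foldr (g x) (y x)) := by
  refine (PolyTime.foldl_add (l := fun x => (l x).reverse) (g := fun x c b => g x b c) (y := y)
    hl.reverse (by fun_prop) hy hs fun x b hb' c => ?_).congr fun x => ?_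
  · exact hb x b (List.mem_reverse.1 hb') c
  · rw [List.foldl_reverse]

@[fun_prop]
theorem PolyTime.decide_mem [DecidableEq β] {f : α → β} {l : α → List β} (hf : PolyTime f)
    (hl : PolyTime l) : PolyTime (fun x => decide (f x ∈ l x)) :=
  (PolyTime.decide_exists_mem (P := fun x b => b = f x) hl (by fun_prop)).congr fun x => by
    simp

theorem PolyTime.filterMap {l : α → List β} {g : α → β → Option γ} (hl : PolyTime l)
    (hg : PolyTime (fun p : α × β => g p.1 p.2)) :
    PolyTime (fun x => (l x).filterMap (g x)) := by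
  have h := PolyTime.flatMap (g := fun x b => Option.casesOn (motive := fun _ => List γ)
    (g x b) [] (fun c => [c])) hl (PolyTime.optionCases hg (by fun_prop)
      (g := fun _ c => [c]) (by fun_prop))
  refine h.congr fun x => ?_
  induction l x with
  | nil => rfl
  | cons b m ih =>
    simp only [List.filterMap_cons, List.flatMap_cons, ih]
    cases g x b <;> rfl

@[fun_prop]
theorem PolyTime.getElem? {l : α → List β} {n : α → ℕ} (hl : PolyTime l)
    (hn : PolyTime n) : PolyTime (fun x => (l x)[n x]?) := by
  have h : PolyTime (fun x => ((l x).map Option.some).getD (n x) none) :=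
    PolyTime.getD (PolyTime.map hl (g := fun _ b => Option.some b) (by fun_prop)) hn (by fun_prop)
  refine h.congr fun x => ?_
  rw [List.getD_eq_getElem?_getD, List.getElem?_map]
  cases (l x)[n x]? <;> rfl

@[fun_prop]
theorem PolyTime.head? {l : α → List β} (hl : PolyTime l) : PolyTime (fun x => (l x).head?) :=
  (PolyTime.getElem? hl (PolyTime.const 0)).congr fun x => by
    rw [List.head?_eq_getElem?]

@[fun_prop]
theorem PolyTime.zip {l : α → List β} {m : α → List γ} (hl : PolyTime l) (hm : PolyTime m) :
    PolyTime (fun x => (l x).zip (m x)) := by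
  have h : PolyTime (fun x => (List.range (l x).length).filterMap fun i =>
      ((l x)[i]?).bind fun b => ((m x)[i]?).map fun c => (b, c)) := by
    refine PolyTime.filterMap (g := fun x i => ((l x)[i]?).bind fun b =>
      ((m x)[i]?).map fun c => (b, c)) (by fun_prop) ?_
    refine PolyTime.optionBind (g := fun (p : α × ℕ) b => ((m p.1)[p.2]?).map fun c => (b, c))
      (by fun_prop) ?_
    exact PolyTime.optionMap (g := fun (q : (α × ℕ) × β) c => (q.2, c)) (by fun_prop)
      (by fun_prop)
  refine h.congr fun x => ?_
  have key : ∀ (l : List β) (m : List γ), l.zip m =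
      (List.range l.length).filterMap fun i =>
        (l[i]?).bind fun b => (m[i]?).map fun c => (b, c) := by
    intro l
    induction l with
    | nil => intro m; simp
    | cons b l ih =>
      intro m
      cases m with
      | nil => simp
      | cons c m =>
        rw [List.length_cons, List.range_succ_eq_map, List.filterMap_cons, List.filterMap_map]
        simp only [List.zip_cons_cons, List.getElem?_cons_zero, Option.bind_some,
          Option.map_some]
        rw [ih m]
        congr 1
  rw [key]

theorem PolyTime.zipWith {l : α → List β} {m : α → List γ} {g : α → β → γ → δ}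
    (hl : PolyTime l) (hm : PolyTime m)
    (hg : PolyTime (fun p : α × (β × γ) => g p.1 p.2.1 p.2.2)) :
    PolyTime (fun x => List.zipWith (g x) (l x) (m x)) :=
  (PolyTime.map (PolyTime.zip hl hm) (g := fun x p => g x p.1 p.2) (by fun_prop)).congr
    fun x => by rw [List.map_zip_eq_zipWith]; rfl

theorem PolyTime.countP {l : α → List β} {g : α → β → Bool} (hl : PolyTime l)
    (hg : PolyTime (fun p : α × β => g p.1 p.2)) :
    PolyTime (fun x => (l x).countP (g x)) :=
  (PolyTime.filter hl hg).length.congr fun x => by rw [List.countP_eq_length_filter]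

@[fun_prop]
theorem PolyTime.count [DecidableEq β] {l : α → List β} {f : α → β} (hl : PolyTime l)
    (hf : PolyTime f) : PolyTime (fun x => (l x).count (f x)) :=
  (PolyTime.countP hl (g := fun x b => b == f x) (by fun_prop)).congr fun x => by
    rw [List.count]

@[fun_prop]
theorem PolyTime.decide_nodup [DecidableEq β] {l : α → List β} (hl : PolyTime l) :
    PolyTime (fun x => decide ((l x).Nodup)) := by
  have h : PolyTime (fun x => decide (∀ b ∈ l x, (l x).count b ≤ 1)) :=
    PolyTime.decide_forall_mem hl (P := fun x b => (l x).count b ≤ 1) (by fun_prop)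
  refine h.congr fun x => ?_
  rw [Bool.eq_iff_iff]
  simp only [decide_eq_true_eq]
  rw [List.nodup_iff_count_le_one]
  constructor
  · intro h b _; exact h b
  · intro h b
    by_cases hb : b ∈ l x
    · exact h b hb
    · rw [List.count_eq_zero_of_not_mem hb]; exact Nat.zero_le _

@[fun_prop]
theorem PolyTime.dedup [DecidableEq β] {l : α → List β} (hl : PolyTime l) :
    PolyTime (fun x => (l x).dedup) := by
  have h2 := hl.pbdd
  have hst : PolyTime (fun p : α × (β × List β) =>
      if p.2.1 ∈ p.2.2 then p.2.2 else p.2.1 :: p.2.2) :=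
    PolyTime.ite (by fun_prop) (by fun_prop) (by fun_prop)
  have h := PolyTime.foldr (l := l) (g := fun (_ : α) b c => if b ∈ c then c else b :: c)
    (y := fun _ => []) hl hst (by fun_prop) (s := fun x => sz (l x)) h2 (fun x i => by
      have key : ∀ m : List β, m.foldr (fun b c => if b ∈ c then c else b :: c) [] = m.dedup := by
        intro m
        induction m with
        | nil => rfl
        | cons b m ih =>
          rw [List.foldr_cons, ih]
          by_cases hb : b ∈ m
          · rw [List.dedup_cons_of_mem hb, if_pos (List.mem_dedup.2 hb)]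
          · rw [List.dedup_cons_of_notMem hb, if_neg (fun h => hb (List.mem_dedup.1 h))]
      rw [key]
      exact sz_le_of_sublist ((List.dedup_sublist _).trans (List.drop_sublist _ _)))
  refine h.congr fun x => ?_
  induction l x with
  | nil => rfl
  | cons b m ih =>
    rw [List.foldr_cons, ← ih]
    by_cases hb : b ∈ m
    · rw [List.dedup_cons_of_mem hb, if_pos (List.mem_dedup.2 hb)]
    · rw [List.dedup_cons_of_notMem hb, if_neg (fun h => hb (List.mem_dedup.1 h))]

@[fun_prop]
theorem PolyTime.product {l : α → List β} {m : α → List γ} (hl : PolyTime l)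
    (hm : PolyTime m) : PolyTime (fun x => (l x).product (m x)) := by
  have h := PolyTime.flatMap (g := fun x b => (m x).map fun c => (b, c)) hl
    (PolyTime.map (l := fun p : α × β => m p.1) (by fun_prop) (g := fun p c => (p.2, c))
      (by fun_prop))
  exact h.congr fun x => rfl

theorem PolyTime.find? {l : α → List β} {g : α → β → Bool} (hl : PolyTime l)
    (hg : PolyTime (fun p : α × β => g p.1 p.2)) :
    PolyTime (fun x => (l x).find? (g x)) :=
  (PolyTime.filter hl hg).head?.congr fun x => by rw [List.head?_filter]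

end Pool.Agent.PT
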