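import Pool.Agent.PT.Compile
import Pool.Agent.PT.Data

/-!
# From `PolyTime` to Mathlib's `Turing.TM2ComputableInPolyTime`
-/

namespace Pool.Agent.PT

open Turing StateTransition

/-- Move the whole contents of `D` to `B` (reversing). -/
def rawDB : Cmd := .seq (.push .C true) (.loop .C (.case .D .skip
  (.seq (.push .B false) (.push .C true)) (.seq (.push .B true) (.push .C true))))

theorem rawDB_loop (l : List Bool) : ∀ (a b : List Bool),
    Exec (.loop .C (.case .D .skip
      (.seq (.push .B false) (.push .C true)) (.seq (.push .B true) (.push .C true))))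
      ⟨a, b, [true], l⟩ ⟨a, l.reverse ++ b, [], []⟩ (5 * l.length + 4) := by
  induction l with
  | nil =>
    intro a b
    have h2 : Exec (.case .D .skip
      (.seq (.push .B false) (.push .C true)) (.seq (.push .B true) (.push .C true)))
      ⟨a, b, [], []⟩ ⟨a, b, [], []⟩ 2 := Exec.caseNone rfl (Exec.skip _)
    have h3 : Exec (.loop .C (.case .D .skip
      (.seq (.push .B false) (.push .C true)) (.seq (.push .B true) (.push .C true))))
      ⟨a, b, [], []⟩ ⟨a, b, [], []⟩ 1 := Exec.loopNone rfl
    exact (Exec.loopTrue (k := .C) (S := ⟨a, b, [true], []⟩) rfl h2 h3).mono (by simp)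
  | cons x l ih =>
    intro a b
    have h := ih a (x :: b)
    have h2 : Exec (.case .D .skip
      (.seq (.push .B false) (.push .C true)) (.seq (.push .B true) (.push .C true)))
        ⟨a, b, [], x :: l⟩ ⟨a, x :: b, [true], l⟩ 4 := by
      cases x
      · exact Exec.caseFalse rfl (Exec.seq (Exec.pushB _ _ _ _ _) (Exec.pushC _ _ _ _ _))
      · exact Exec.caseTrue rfl (Exec.seq (Exec.pushB _ _ _ _ _) (Exec.pushC _ _ _ _ _))
    have h3 := Exec.loopTrue (k := .C) (S := ⟨a, b, [true], x :: l⟩) rfl h2 h
    simp only [List.reverse_cons, List.append_assoc, List.singleton_append,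
      List.length_cons]
    exact h3.mono (by omega)

theorem rawDB_exec (l a b : List Bool) :
    Exec rawDB ⟨a, b, [], l⟩ ⟨a, l.reverse ++ b, [], []⟩ (5 * l.length + 6) :=
  ((Exec.pushC true a b [] l).seq (rawDB_loop l a b)).mono (by omega)

/-- Move the whole contents of `B` to `D` (reversing). -/
def rawBD : Cmd := .seq (.push .C true) (.loop .C (.case .B .skip
  (.seq (.push .D false) (.push .C true)) (.seq (.push .D true) (.push .C true))))

theorem rawBD_loop (l : List Bool) : ∀ (a d : List Bool),
    Exec (.loop .C (.case .B .skip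
      (.seq (.push .D false) (.push .C true)) (.seq (.push .D true) (.push .C true))))
      ⟨a, l, [true], d⟩ ⟨a, [], [], l.reverse ++ d⟩ (5 * l.length + 4) := by
  induction l with
  | nil =>
    intro a d
    have h2 : Exec (.case .B .skip
      (.seq (.push .D false) (.push .C true)) (.seq (.push .D true) (.push .C true)))
      ⟨a, [], [], d⟩ ⟨a, [], [], d⟩ 2 := Exec.caseNone rfl (Exec.skip _)
    have h3 : Exec (.loop .C (.case .B .skip
      (.seq (.push .D false) (.push .C true)) (.seq (.push .D true) (.push .C true))))
      ⟨a, [], [], d⟩ ⟨a, [], [], d⟩ 1 := Exec.loopNone rfl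
    exact (Exec.loopTrue (k := .C) (S := ⟨a, [], [true], d⟩) rfl h2 h3).mono (by simp)
  | cons x l ih =>
    intro a d
    have h := ih a (x :: d)
    have h2 : Exec (.case .B .skip
      (.seq (.push .D false) (.push .C true)) (.seq (.push .D true) (.push .C true)))
        ⟨a, x :: l, [], d⟩ ⟨a, l, [true], x :: d⟩ 4 := by
      cases x
      · exact Exec.caseFalse rfl (Exec.seq (Exec.pushD _ _ _ _ _) (Exec.pushC _ _ _ _ _))
      · exact Exec.caseTrue rfl (Exec.seq (Exec.pushD _ _ _ _ _) (Exec.pushC _ _ _ _ _))
    have h3 := Exec.loopTrue (k := .C) (S := ⟨a, x :: l, [true], d⟩) rfl h2 h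
    simp only [List.reverse_cons, List.append_assoc, List.singleton_append,
      List.length_cons]
    exact h3.mono (by omega)

theorem rawBD_exec (l a d : List Bool) :
    Exec rawBD ⟨a, l, [], d⟩ ⟨a, [], [], l.reverse ++ d⟩ (5 * l.length + 6) :=
  ((Exec.pushC true a l [] d).seq (rawBD_loop l a d)).mono (by omega)

/-- Move the whole contents of `B` to `A` (reversing). -/
def rawBA : Cmd := .seq (.push .C true) (.loop .C (.case .B .skip
  (.seq (.push .A false) (.push .C true)) (.seq (.push .A true) (.push .C true))))

theorem rawBA_loop (l : List Bool) : ∀ (a d : List Bool),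
    Exec (.loop .C (.case .B .skip
      (.seq (.push .A false) (.push .C true)) (.seq (.push .A true) (.push .C true))))
      ⟨a, l, [true], d⟩ ⟨l.reverse ++ a, [], [], d⟩ (5 * l.length + 4) := by
  induction l with
  | nil =>
    intro a d
    have h2 : Exec (.case .B .skip
      (.seq (.push .A false) (.push .C true)) (.seq (.push .A true) (.push .C true)))
      ⟨a, [], [], d⟩ ⟨a, [], [], d⟩ 2 := Exec.caseNone rfl (Exec.skip _)
    have h3 : Exec (.loop .C (.case .B .skip
      (.seq (.push .A false) (.push .C true)) (.seq (.push .A true) (.push .C true))))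
      ⟨a, [], [], d⟩ ⟨a, [], [], d⟩ 1 := Exec.loopNone rfl
    exact (Exec.loopTrue (k := .C) (S := ⟨a, [], [true], d⟩) rfl h2 h3).mono (by simp)
  | cons x l ih =>
    intro a d
    have h := ih (x :: a) d
    have h2 : Exec (.case .B .skip
      (.seq (.push .A false) (.push .C true)) (.seq (.push .A true) (.push .C true)))
        ⟨a, x :: l, [], d⟩ ⟨x :: a, l, [true], d⟩ 4 := by
      cases x
      · exact Exec.caseFalse rfl (Exec.seq (Exec.pushA _ _ _ _ _) (Exec.pushC _ _ _ _ _))
      · exact Exec.caseTrue rfl (Exec.seq (Exec.pushA _ _ _ _ _) (Exec.pushC _ _ _ _ _))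
    have h3 := Exec.loopTrue (k := .C) (S := ⟨a, x :: l, [true], d⟩) rfl h2 h
    simp only [List.reverse_cons, List.append_assoc, List.singleton_append,
      List.length_cons]
    exact h3.mono (by omega)

theorem rawBA_exec (l a d : List Bool) :
    Exec rawBA ⟨a, l, [], d⟩ ⟨l.reverse ++ a, [], [], d⟩ (5 * l.length + 6) :=
  ((Exec.pushC true a l [] d).seq (rawBA_loop l a d)).mono (by omega)

/-- Move the whole contents of `A` to `B` (reversing). -/
def rawAB : Cmd := .seq (.push .C true) (.loop .C (.case .A .skip
  (.seq (.push .B false) (.push .C true)) (.seq (.push .B true) (.push .C true))))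

theorem rawAB_loop (l : List Bool) : ∀ (b d : List Bool),
    Exec (.loop .C (.case .A .skip
      (.seq (.push .B false) (.push .C true)) (.seq (.push .B true) (.push .C true))))
      ⟨l, b, [true], d⟩ ⟨[], l.reverse ++ b, [], d⟩ (5 * l.length + 4) := by
  induction l with
  | nil =>
    intro b d
    have h2 : Exec (.case .A .skip
      (.seq (.push .B false) (.push .C true)) (.seq (.push .B true) (.push .C true)))
      ⟨[], b, [], d⟩ ⟨[], b, [], d⟩ 2 := Exec.caseNone rfl (Exec.skip _)
    have h3 : Exec (.loop .C (.case .A .skip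
      (.seq (.push .B false) (.push .C true)) (.seq (.push .B true) (.push .C true))))
      ⟨[], b, [], d⟩ ⟨[], b, [], d⟩ 1 := Exec.loopNone rfl
    exact (Exec.loopTrue (k := .C) (S := ⟨[], b, [true], d⟩) rfl h2 h3).mono (by simp)
  | cons x l ih =>
    intro b d
    have h := ih (x :: b) d
    have h2 : Exec (.case .A .skip
      (.seq (.push .B false) (.push .C true)) (.seq (.push .B true) (.push .C true)))
        ⟨x :: l, b, [], d⟩ ⟨l, x :: b, [true], d⟩ 4 := by
      cases x
      · exact Exec.caseFalse rfl (Exec.seq (Exec.pushB _ _ _ _ _) (Exec.pushC _ _ _ _ _))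
      · exact Exec.caseTrue rfl (Exec.seq (Exec.pushB _ _ _ _ _) (Exec.pushC _ _ _ _ _))
    have h3 := Exec.loopTrue (k := .C) (S := ⟨x :: l, b, [true], d⟩) rfl h2 h
    simp only [List.reverse_cons, List.append_assoc, List.singleton_append,
      List.length_cons]
    exact h3.mono (by omega)

theorem rawAB_exec (l b d : List Bool) :
    Exec rawAB ⟨l, b, [], d⟩ ⟨[], l.reverse ++ b, [], d⟩ (5 * l.length + 6) :=
  ((Exec.pushC true l b [] d).seq (rawAB_loop l b d)).mono (by omega)

/-- Wrap a run of a command as an output of the compiled machine. -/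
noncomputable def outputsInTime (p : Cmd) {w w' : List Bool} {T : ℕ}
    (h : Exec p ⟨[], [], [], w⟩ ⟨[], [], [], w'⟩ T) (u v : List Bool) (hu : u = w)
    (hv : v = w') :
    TM2OutputsInTime (machine p) u (some v) (T + 1) where
  steps := h.choose + 1
  evals_in_steps := by subst hu; subst hv; exact outputs_of_run p h.choose_spec.2
  steps_le_m := Nat.add_le_add_right h.choose_spec.1 1

/-- A function computed by a command within polynomial time is computed by a Turing machine in
polynomial time. -/
theorem tm2_of_exec {α β : Type} (ea : α → List Bool) (eb : β → List Bool) (f : α → β)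
    (p : Cmd) (P : Polynomial ℕ)
    (h : ∀ x, Exec p ⟨[], [], [], ea x⟩ ⟨[], [], [], eb (f x)⟩ (P.eval (ea x).length)) :
    Nonempty (TM2ComputableInPolyTime ea eb f) := by
  refine ⟨{ tm := machine p, inputAlphabet := Equiv.refl _, outputAlphabet := Equiv.refl _,
            time := P + 1, outputsFun := fun x => ?_ }⟩
  have e1 : List.map (Equiv.refl Bool).invFun (ea x) = ea x := List.map_id _
  have e2 : List.map (Equiv.refl Bool).invFun (eb (f x)) = eb (f x) := List.map_id _
  have e3 : (P + 1).eval (ea x).length = P.eval (ea x).length + 1 := by simp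
  rw [e3]
  exact outputsInTime p (h x) _ _ e1 e2

/-- `PolyTime` functions are computed by Turing machines (in the sense of Mathlib) in polynomial
time, with inputs and outputs written in their codes. -/
theorem PolyTime.tm2 {α β : Type} [Enc α] [Enc β] {f : α → β} (hf : PolyTime f) :
    Nonempty (TM2ComputableInPolyTime (code (α := α)) (code (α := β)) f) := by
  obtain ⟨p, P, hp⟩ := hf
  have hb : PBdd (fun x => sz (f x)) := PolyTime.pbdd ⟨p, P, hp⟩
  obtain ⟨Q, hQ⟩ : PBdd (fun x : α => (5 * sz x + 6) + ((5 * sz x + 6) + (P.eval (sz x) +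
      ((5 * sz (f x) + 6) + (5 * sz (f x) + 6) + 1) + 1) + 1) + 1) := by
    have := (PBdd.size (α := α)).eval P
    fun_prop
  refine tm2_of_exec _ _ f (.seq rawDB (.seq rawBA (.seq p (.seq rawAB rawBD)))) Q fun x => ?_
  have h1 := rawDB_exec (code x) [] []
  have h2 := rawBA_exec (code x).reverse [] []
  have h3 := hp x [] [] [] []
  have h4 := rawAB_exec (code (f x)) [] []
  have h5 := rawBD_exec (code (f x)).reverse [] []
  simp only [List.append_nil, List.reverse_reverse, List.length_reverse] at h1 h2 h3 h4 h5
  exact (h1.seq (h2.seq (h3.seq (h4.seq h5)))).mono (hQ x)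

/-- Encode a raw bit string on `B` (reversed) as a list code on `A`. -/
def encBA : Cmd := .seq (.push .A false) (.seq (.push .C true) (.loop .C (.case .B .skip
  (.seq (.push .A false) (.seq (.push .A true) (.push .C true)))
  (.seq (.push .A false) (.seq (.push .A false) (.seq (.push .A true) (.seq (.push .A true)
    (.push .C true))))))))

theorem encBA_loop (l : List Bool) : ∀ (m : List Bool) (d : List Bool),
    Exec (.loop .C (.case .B .skip
      (.seq (.push .A false) (.seq (.push .A true) (.push .C true)))
      (.seq (.push .A false) (.seq (.push .A false) (.seq (.push .A true) (.seq (.push .A true)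
        (.push .C true)))))))
      ⟨code m, l, [true], d⟩ ⟨code (l.reverse ++ m), [], [], d⟩ (11 * l.length + 4) := by
  induction l with
  | nil =>
    intro m d
    have h2 : Exec (.case .B .skip
      (.seq (.push .A false) (.seq (.push .A true) (.push .C true)))
      (.seq (.push .A false) (.seq (.push .A false) (.seq (.push .A true) (.seq (.push .A true)
        (.push .C true))))))
      ⟨code m, [], [], d⟩ ⟨code m, [], [], d⟩ 2 := Exec.caseNone rfl (Exec.skip _)
    have h3 : Exec (.loop .C (.case .B .skip
      (.seq (.push .A false) (.seq (.push .A true) (.push .C true)))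
      (.seq (.push .A false) (.seq (.push .A false) (.seq (.push .A true) (.seq (.push .A true)
        (.push .C true)))))))
      ⟨code m, [], [], d⟩ ⟨code m, [], [], d⟩ 1 := Exec.loopNone rfl
    exact (Exec.loopTrue (k := .C) (S := ⟨code m, [], [true], d⟩) rfl h2 h3).mono (by simp)
  | cons x l ih =>
    intro m d
    have h := ih (x :: m) d
    have h2 : Exec (.case .B .skip
      (.seq (.push .A false) (.seq (.push .A true) (.push .C true)))
      (.seq (.push .A false) (.seq (.push .A false) (.seq (.push .A true) (.seq (.push .A true)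
        (.push .C true))))))
        ⟨code m, x :: l, [], d⟩ ⟨code (x :: m), l, [true], d⟩ 10 := by
      cases x
      · exact (Exec.caseFalse rfl (Exec.seq (Exec.pushA _ _ _ _ _)
          (Exec.seq (Exec.pushA _ _ _ _ _) (Exec.pushC _ _ _ _ _)))).mono (by omega)
      · exact Exec.caseTrue rfl (Exec.seq (Exec.pushA _ _ _ _ _)
          (Exec.seq (Exec.pushA _ _ _ _ _) (Exec.seq (Exec.pushA _ _ _ _ _)
          (Exec.seq (Exec.pushA _ _ _ _ _) (Exec.pushC _ _ _ _ _)))))
    have h3 := Exec.loopTrue (k := .C) (S := ⟨code m, x :: l, [true], d⟩) rfl h2 h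
    simp only [List.reverse_cons, List.append_assoc, List.singleton_append,
      List.length_cons]
    exact h3.mono (by omega)

theorem encBA_exec (l d : List Bool) :
    Exec encBA ⟨[], l, [], d⟩ ⟨code l.reverse, [], [], d⟩ (11 * l.length + 8) := by
  have h := encBA_loop l [] d
  rw [List.append_nil] at h
  exact ((Exec.pushA false [] l [] d).seq ((Exec.pushC true _ _ _ _).seq h)).mono (by omega)

/-- Decode a list code on `A` into a raw (reversed) bit string on `B`. -/
def decAB : Cmd := .loop .A (.case .A .skip (.push .B false)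
  (.case .A .skip (.case .A .skip (.push .B true) .skip) .skip))

theorem decAB_exec (l : List Bool) : ∀ (b d : List Bool),
    Exec decAB ⟨code l, b, [], d⟩ ⟨[], l.reverse ++ b, [], d⟩ (5 * l.length + 1) := by
  induction l with
  | nil => intro b d; exact Exec.loopFalse rfl
  | cons x l ih =>
    intro b d
    have h := ih (x :: b) d
    have h2 : Exec (.case .A .skip (.push .B false)
        (.case .A .skip (.case .A .skip (.push .B true) .skip) .skip))
        ⟨code x ++ code l, b, [], d⟩ ⟨code l, x :: b, [], d⟩ 4 := by
      cases x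
      · exact (Exec.caseFalse rfl (Exec.pushB _ _ _ _ _)).mono (by omega)
      · exact Exec.caseTrue rfl (Exec.caseFalse rfl (Exec.caseFalse rfl (Exec.pushB _ _ _ _ _)))
    have h3 := Exec.loopTrue (k := .A) (S := ⟨code (x :: l), b, [], d⟩) rfl h2 h
    simp only [List.reverse_cons, List.append_assoc, List.singleton_append,
      List.length_cons]
    exact h3.mono (by omega)

theorem sz_listBool (l : List Bool) : sz l ≤ 4 * l.length + 1 := by
  induction l with
  | nil => simp
  | cons x l ih =>
    have := sz_bool x
    rw [sz_cons, List.length_cons]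
    omega

/-- A polynomial-time function on bit strings gives a polynomial-time Turing machine (in the sense
of Mathlib) for every function it represents via bit-string encodings. -/
theorem PolyTime.tm2_string {α β : Type} {g : List Bool → List Bool} (hg : PolyTime g)
    (ea : α → List Bool) (eb : β → List Bool) (f : α → β) (h : ∀ x, g (ea x) = eb (f x)) :
    Nonempty (TM2ComputableInPolyTime ea eb f) := by
  have hb : PBdd (fun x => sz (g x)) := hg.pbdd
  obtain ⟨p, P, hp⟩ := hg
  obtain ⟨Q, hQ⟩ : PBdd (fun x : List Bool => (5 * sz x + 6) + ((11 * sz x + 8) +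
      (P.eval (sz x) + ((5 * sz (g x) + 1) + (5 * sz (g x) + 6) + 1) + 1) + 1) + 1) := by
    have := (PBdd.size (α := List Bool)).eval P
    fun_prop
  refine tm2_of_exec ea eb f (.seq rawDB (.seq encBA (.seq p (.seq decAB rawBD))))
    (Q.comp (4 * Polynomial.X + 1)) fun x => ?_
  have h1 := rawDB_exec (ea x) [] []
  have h2 := encBA_exec (ea x).reverse []
  have h3 := hp (ea x) [] [] [] []
  have h4 := decAB_exec (g (ea x)) [] []
  have h5 := rawBD_exec (g (ea x)).reverse [] []
  simp only [List.append_nil, List.reverse_reverse, List.length_reverse] at h1 h2 h3 h4 h5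
  have h6 := h1.seq (h2.seq (h3.seq (h4.seq h5)))
  rw [h x] at h6
  refine h6.mono ?_
  have h7 := hQ (ea x)
  have h8 := length_le_sz (ea x)
  have h9 := length_le_sz (eb (f x))
  have h10 : Q.eval (sz (ea x)) ≤ (Q.comp (4 * Polynomial.X + 1)).eval (ea x).length := by
    rw [Polynomial.eval_comp]
    refine eval_mono Q ?_
    simpa using sz_listBool (ea x)
  dsimp only at h7
  rw [h x] at h7
  omega

end Pool.Agent.PT
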