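import Pool.Agent.PT.Data

/-!
# Polynomial-time arithmetic on (unary) natural numbers, more list functions, options, sums,
integers, finite types
-/

namespace Pool.Agent.PT

variable {α β γ δ ε : Type*} [Enc α] [Enc β] [Enc γ] [Enc δ] [Enc ε]

/-! ### Natural numbers -/

@[fun_prop]
theorem PolyTime.natPred {f : α → ℕ} (hf : PolyTime f) : PolyTime (fun x => f x - 1) :=
  (PolyTime.natCases hf (PolyTime.const 0) (g := fun _ n => n) (by fun_prop)).congr fun x => by
    cases f x <;> rfl

@[fun_prop]
theorem PolyTime.natAdd {f g : α → ℕ} (hf : PolyTime f) (hg : PolyTime g) :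
    PolyTime (fun x => f x + g x) := by
  have h1 := hf.pbdd
  have h2 := hg.pbdd
  have key : ∀ (i c : ℕ), (fun n : ℕ => n + 1)^[i] c = c + i := by
    intro i
    induction i with
    | zero => intro c; rfl
    | succ i ih => intro c; rw [Function.iterate_succ_apply, ih]; omega
  have h := PolyTime.iterate (f := fun n : ℕ => n + 1) (n := g) (g := f) (by fun_prop) hg hf
    (s := fun x => sz (f x) + sz (g x)) (by fun_prop) (fun x i hi => by
      rw [key]; simp only [sz_nat]; omega)
  exact h.congr fun x => by rw [key]

@[fun_prop]
theorem PolyTime.natSub {f g : α → ℕ} (hf : PolyTime f) (hg : PolyTime g) :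
    PolyTime (fun x => f x - g x) := by
  have h1 := hf.pbdd
  have key : ∀ (i c : ℕ), (fun n : ℕ => n - 1)^[i] c = c - i := by
    intro i
    induction i with
    | zero => intro c; rfl
    | succ i ih => intro c; rw [Function.iterate_succ_apply, ih]; omega
  have h := PolyTime.iterate (f := fun n : ℕ => n - 1) (n := g) (g := f) (by fun_prop) hg hf
    (s := fun x => sz (f x)) (by fun_prop) (fun x i hi => by
      rw [key]; simp only [sz_nat]; omega)
  exact h.congr fun x => by rw [key]

@[fun_prop]
theorem PolyTime.natMul {f g : α → ℕ} (hf : PolyTime f) (hg : PolyTime g) :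
    PolyTime (fun x => f x * g x) := by
  have h1 := hf.pbdd
  have h2 := hg.pbdd
  have key : ∀ (a i c : ℕ), (fun n : ℕ => n + a)^[i] c = c + a * i := by
    intro a i
    induction i with
    | zero => intro c; rfl
    | succ i ih => intro c; rw [Function.iterate_succ_apply, ih]; ring
  have h := PolyTime.iterate' (f := fun x (n : ℕ) => n + f x) (n := g) (g := fun _ => 0)
    (by fun_prop) hg (by fun_prop)
    (s := fun x => 2 * (sz (f x) * sz (g x)) + 1) (by fun_prop) (fun x i hi => by
      rw [key]; simp only [sz_nat]
      have : f x * i ≤ (2 * f x + 1) * (2 * g x + 1) := Nat.mul_le_mul (by omega) (by omega)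
      omega)
  exact h.congr fun x => by rw [key, Nat.zero_add]

@[fun_prop]
theorem PolyTime.decide_le {f g : α → ℕ} (hf : PolyTime f) (hg : PolyTime g) :
    PolyTime (fun x => decide (f x ≤ g x)) :=
  ((hf.natSub hg).decide_eq (PolyTime.const 0)).congr fun x => by
    simp [Nat.sub_eq_zero_iff_le]

@[fun_prop]
theorem PolyTime.decide_lt {f g : α → ℕ} (hf : PolyTime f) (hg : PolyTime g) :
    PolyTime (fun x => decide (f x < g x)) :=
  (hf.succ.decide_le hg).congr fun _ => rfl

@[fun_prop]
theorem PolyTime.natMax {f g : α → ℕ} (hf : PolyTime f) (hg : PolyTime g) :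
    PolyTime (fun x => max (f x) (g x)) :=
  ((hf.natSub hg).natAdd hg).congr fun x => by omega

@[fun_prop]
theorem PolyTime.natMin {f g : α → ℕ} (hf : PolyTime f) (hg : PolyTime g) :
    PolyTime (fun x => min (f x) (g x)) :=
  (hf.natSub (hf.natSub hg)).congr fun x => by omega

/-- `List.range` -/
@[fun_prop]
theorem PolyTime.range {f : α → ℕ} (hf : PolyTime f) : PolyTime (fun x => List.range (f x)) := by
  have h1 := hf.pbdd
  have key : ∀ (i : ℕ) (c : List ℕ), (fun l : List ℕ => l.length :: l)^[i] [] =
      (List.range i).reverse := by
    intro i _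
    induction i with
    | zero => rfl
    | succ i ih =>
      rw [Function.iterate_succ_apply', ih]
      simp [List.range_succ]
  have h := PolyTime.iterate (f := fun l : List ℕ => l.length :: l) (n := f)
    (g := fun _ => []) (by fun_prop) hf (by fun_prop)
    (s := fun x => sz (f x) * (sz (f x) + 1) + 1) (by fun_prop) (fun x i hi => by
      rw [key i [], sz_reverse]
      have h2 : ∀ y ∈ List.range i, sz y ≤ sz (f x) := by
        intro y hy
        rw [List.mem_range] at hy
        simp only [sz_nat]; omega
      have h3 := sz_le_of_forall h2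
      rw [List.length_range] at h3
      have h4 : i * (sz (f x) + 1) ≤ sz (f x) * (sz (f x) + 1) :=
        Nat.mul_le_mul_right _ (by rw [sz_nat]; omega)
      omega)
  refine h.reverse.congr fun x => ?_
  rw [key _ [], List.reverse_reverse]

/-- `Nat.find`-like bounded count: the number of `i < n x` with `g x i`. -/
theorem PolyTime.countRange {n : α → ℕ} {g : α → ℕ → Bool} (hn : PolyTime n)
    (hg : PolyTime (fun p : α × ℕ => g p.1 p.2)) :
    PolyTime (fun x => ((List.range (n x)).filter (g x)).length) :=
  (PolyTime.filter hn.range hg).length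

@[fun_prop]
theorem PolyTime.natDiv {f g : α → ℕ} (hf : PolyTime f) (hg : PolyTime g) :
    PolyTime (fun x => f x / g x) := by
  have h := PolyTime.countRange (n := f)
    (g := fun x i => decide (0 < g x) && decide ((i + 1) * g x ≤ f x)) hf (by fun_prop)
  refine h.congr fun x => ?_
  rcases Nat.eq_zero_or_pos (g x) with h0 | h0
  · simp [h0]
  · have e : (List.range (f x)).filter
        (fun i => decide (0 < g x) && decide ((i + 1) * g x ≤ f x)) =
        (List.range (f x)).filter (fun i => decide (i < f x / g x)) := by
      refine List.filter_congr fun i _ => ?_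
      have : (i + 1) * g x ≤ f x ↔ i < f x / g x := by
        rw [Nat.lt_iff_add_one_le, Nat.le_div_iff_mul_le h0]
      simp [h0, this]
    rw [e]
    have h2 : ∀ (m k : ℕ), k ≤ m → ((List.range m).filter (fun i => decide (i < k))).length = k := by
      intro m
      induction m with
      | zero => intro k hk; simp; omega
      | succ m ih =>
        intro k hk
        rw [List.range_succ, List.filter_append, List.length_append]
        rcases Nat.lt_or_ge m k with hmk | hmk
        · have hk' : k = m + 1 := by omega
          subst hk'
          have : ((List.range m).filter (fun i => decide (i < m + 1))) = List.range m := by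
            rw [List.filter_eq_self]
            intro i hi
            rw [List.mem_range] at hi
            simp; omega
          rw [this]
          simp
        · rw [ih k hmk]
          have : ¬ m < k := by omega
          simp [this]
    exact (h2 _ _ (Nat.div_le_self _ _)).symm

@[fun_prop]
theorem PolyTime.natMod {f g : α → ℕ} (hf : PolyTime f) (hg : PolyTime g) :
    PolyTime (fun x => f x % g x) :=
  (hf.natSub (hg.natMul (hf.natDiv hg))).congr fun x => by
    have := Nat.div_add_mod (f x) (g x)
    omega

/-- Bounded powers: `a ^ k` when the result is polynomially bounded. -/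
theorem PolyTime.natPow {f g : α → ℕ} (hf : PolyTime f) (hg : PolyTime g)
    {s : α → ℕ} (hs : PBdd s) (hb : ∀ x, ∀ i ≤ g x, f x ^ i ≤ s x) :
    PolyTime (fun x => f x ^ g x) := by
  have key : ∀ (a i c : ℕ), (fun n : ℕ => n * a)^[i] c = c * a ^ i := by
    intro a i
    induction i with
    | zero => intro c; simp
    | succ i ih => intro c; rw [Function.iterate_succ_apply, ih]; ring
  have h := PolyTime.iterate' (f := fun x (n : ℕ) => n * f x) (n := g) (g := fun _ => 1)
    (by fun_prop) hg (by fun_prop)
    (s := fun x => 2 * s x + 1) (by fun_prop) (fun x i hi => by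
      rw [key]; simp only [sz_nat]
      have := hb x i hi.le
      omega)
  exact h.congr fun x => by rw [key, Nat.one_mul]

/-- Fixed powers. -/
@[fun_prop]
theorem PolyTime.natPowConst {f : α → ℕ} (hf : PolyTime f) (k : ℕ) :
    PolyTime (fun x => f x ^ k) := by
  induction k with
  | zero => exact (PolyTime.const 1).congr fun x => by simp
  | succ k ih => exact (ih.natMul hf).congr fun x => by rw [pow_succ]

/-- Halving loop used for `Nat.size`. -/
theorem natSize_iterate (m : ℕ) : ∀ (n c : ℕ), n < 2 ^ m →
    (fun p : ℕ × ℕ => if p.1 = 0 then p else (p.1 / 2, p.2 + 1))^[m] (n, c) =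
      (0, c + Nat.size n) := by
  induction m with
  | zero =>
    intro n c h
    have : n = 0 := by simpa using h
    subst this
    simp
  | succ m ih =>
    intro n c h
    rw [Function.iterate_succ_apply]
    by_cases hn : n = 0
    · subst hn
      simp only [if_true]
      rw [ih 0 c (by positivity)]
    · simp only [hn, if_false]
      rw [ih (n / 2) (c + 1) (by rw [Nat.div_lt_iff_lt_mul (by norm_num)]; rw [pow_succ] at h; exact h)]
      have h2 : Nat.size n = Nat.size (n / 2) + 1 := by
        have e : n = Nat.bit (n.testBit 0) (n / 2) := by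
          have := Nat.bit_testBit_zero_shiftRight_one n
          rw [Nat.shiftRight_one] at this
          exact this.symm
        conv_lhs => rw [e]
        rw [Nat.size_bit]
        rw [← e]; exact hn
      rw [h2]
      congr 1
      omega

@[fun_prop]
theorem PolyTime.natSize {f : α → ℕ} (hf : PolyTime f) : PolyTime (fun x => Nat.size (f x)) := by
  have h1 := hf.pbdd
  have hst : PolyTime (fun p : ℕ × ℕ => if p.1 = 0 then p else (p.1 / 2, p.2 + 1)) :=
    PolyTime.ite (by fun_prop) (by fun_prop) (by fun_prop)
  have hbd : ∀ (i n c : ℕ),
      ((fun p : ℕ × ℕ => if p.1 = 0 then p else (p.1 / 2, p.2 + 1))^[i] (n, c)).1 ≤ n ∧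
      ((fun p : ℕ × ℕ => if p.1 = 0 then p else (p.1 / 2, p.2 + 1))^[i] (n, c)).2 ≤ c + i := by
    intro i
    induction i with
    | zero => intro n c; simp
    | succ i ih =>
      intro n c
      rw [Function.iterate_succ_apply]
      by_cases hn : n = 0
      · simp only [hn, if_true]
        have := ih 0 c
        omega
      · simp only [hn, if_false]
        have := ih (n / 2) (c + 1)
        omega
  have h := PolyTime.iterate (n := f) (g := fun x => (f x, 0)) hst hf (by fun_prop)
    (s := fun x => 4 * sz (f x) + 4) (by fun_prop) (fun x i hi => by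
      have := hbd i (f x) 0
      rw [sz_prod]
      simp only [sz_nat]
      omega)
  refine (PolyTime.snd h).congr fun x => ?_
  rw [natSize_iterate _ _ _ Nat.lt_two_pow_self]
  simp

/-! ### More list functions -/

@[fun_prop]
theorem PolyTime.sum {l : α → List ℕ} (hl : PolyTime l) : PolyTime (fun x => (l x).sum) := by
  have h2 := hl.pbdd
  have h := PolyTime.foldl_add (γ := ℕ) hl (g := fun _ c b => c + b) (y := fun _ => 0)
    (by fun_prop) (by fun_prop) (s := fun x => sz (l x)) (by fun_prop)
    (fun x b hb c => by
      have := sz_le_of_mem hb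
      simp only [sz_nat] at this ⊢; omega)
  refine h.congr fun x => ?_
  rw [List.sum_eq_foldl]

@[fun_prop]
theorem PolyTime.replicate {n : α → ℕ} {f : α → β} (hn : PolyTime n) (hf : PolyTime f) :
    PolyTime (fun x => List.replicate (n x) (f x)) :=
  (PolyTime.map hn.range (g := fun x _ => f x) (by fun_prop)).congr fun x => by
    simp

@[fun_prop]
theorem PolyTime.drop {n : α → ℕ} {l : α → List β} (hn : PolyTime n) (hl : PolyTime l) :
    PolyTime (fun x => (l x).drop (n x)) := by
  have h2 := hl.pbdd
  have key : ∀ (i : ℕ) (m : List β), (fun l : List β => l.tail)^[i] m = m.drop i := by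
    intro i
    induction i with
    | zero => intro m; rfl
    | succ i ih =>
      intro m
      rw [Function.iterate_succ_apply, ih, List.drop_tail]
  have h := PolyTime.iterate (f := fun l : List β => l.tail) (n := n) (g := l) (by fun_prop)
    hn hl (s := fun x => sz (l x)) h2 (fun x i _ => by
      rw [key]
      exact sz_le_of_sublist (List.drop_sublist _ _))
  exact h.congr fun x => by rw [key]

@[fun_prop]
theorem PolyTime.take {n : α → ℕ} {l : α → List β} (hn : PolyTime n) (hl : PolyTime l) :
    PolyTime (fun x => (l x).take (n x)) := by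
  have h := ((PolyTime.drop (hl.length.natSub hn) hl.reverse).reverse)
  refine h.congr fun x => ?_
  rw [List.drop_reverse, List.reverse_reverse]
  rcases Nat.le_total (n x) (l x).length with h | h
  · congr 1
    omega
  · rw [List.take_of_length_le h, List.take_of_length_le (by omega)]

@[fun_prop]
theorem PolyTime.getD {l : α → List β} {n : α → ℕ} {f : α → β} (hl : PolyTime l)
    (hn : PolyTime n) (hf : PolyTime f) : PolyTime (fun x => (l x).getD (n x) (f x)) :=
  (PolyTime.headD (PolyTime.drop hn hl) hf).congr fun x => by
    rw [List.headD_eq_head?_getD, List.head?_drop, List.getD_eq_getElem?_getD]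

end Pool.Agent.PT
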