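import Pool.Agent.PT.Tree

/-!
# Polynomial-time functions between types with a tree coding
-/

namespace Pool.Agent.PT

/-- Types with an injective coding by binary trees. -/
class Enc (α : Type*) where
  /-- the tree code -/
  toD : α → Dt
  /-- the coding is injective -/
  inj : Function.Injective toD

/-- The bit string coding an element. -/
def code {α : Type*} [Enc α] (x : α) : List Bool := (Enc.toD x).enc

/-- The length of the code of an element. -/
def sz {α : Type*} [Enc α] (x : α) : ℕ := (code x).length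

/-- `s` is bounded by a polynomial in the size of its argument. -/
@[fun_prop]
def PBdd {α : Type*} [Enc α] (s : α → ℕ) : Prop := ∃ P : Polynomial ℕ, ∀ x, s x ≤ P.eval (sz x)

/-- `f` is computed on codes by a stack program in polynomial time, working on top of
arbitrary stacks. -/
@[fun_prop]
def PolyTime {α β : Type*} [Enc α] [Enc β] (f : α → β) : Prop :=
  ∃ (p : Cmd) (P : Polynomial ℕ), ∀ (x : α) (a b c d : List Bool),
    Exec p ⟨code x ++ a, b, c, d⟩ ⟨code (f x) ++ a, b, c, d⟩ (P.eval (sz x))

section poly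

theorem eval_mono (P : Polynomial ℕ) {m n : ℕ} (h : m ≤ n) : P.eval m ≤ P.eval n := by
  rw [Polynomial.eval_eq_sum_range, Polynomial.eval_eq_sum_range]
  exact Finset.sum_le_sum fun i _ => Nat.mul_le_mul_left _ (Nat.pow_le_pow_left h i)

variable {α β γ : Type*} [Enc α] [Enc β] [Enc γ]

theorem PBdd.of_le {s s' : α → ℕ} (h : PBdd s') (hs : ∀ x, s x ≤ s' x) : PBdd s := by
  obtain ⟨P, hP⟩ := h
  exact ⟨P, fun x => (hs x).trans (hP x)⟩

@[fun_prop]
theorem PBdd.const (n : ℕ) : PBdd (fun _ : α => n) := ⟨Polynomial.C n, fun x => by simp⟩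

@[fun_prop]
theorem PBdd.size : PBdd (fun x : α => sz x) := ⟨Polynomial.X, fun x => by simp⟩

@[fun_prop]
theorem PBdd.add {s s' : α → ℕ} (h : PBdd s) (h' : PBdd s') : PBdd (fun x => s x + s' x) := by
  obtain ⟨P, hP⟩ := h
  obtain ⟨Q, hQ⟩ := h'
  exact ⟨P + Q, fun x => by simpa using Nat.add_le_add (hP x) (hQ x)⟩

@[fun_prop]
theorem PBdd.mul {s s' : α → ℕ} (h : PBdd s) (h' : PBdd s') : PBdd (fun x => s x * s' x) := by
  obtain ⟨P, hP⟩ := h
  obtain ⟨Q, hQ⟩ := h'
  exact ⟨P * Q, fun x => by simpa using Nat.mul_le_mul (hP x) (hQ x)⟩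

@[fun_prop]
theorem PBdd.pow {s : α → ℕ} (h : PBdd s) (k : ℕ) : PBdd (fun x => s x ^ k) := by
  obtain ⟨P, hP⟩ := h
  exact ⟨P ^ k, fun x => by simpa using Nat.pow_le_pow_left (hP x) k⟩

@[fun_prop]
theorem PBdd.sub {s s' : α → ℕ} (h : PBdd s) : PBdd (fun x => s x - s' x) :=
  h.of_le fun _ => Nat.sub_le _ _

@[fun_prop]
theorem PBdd.max {s s' : α → ℕ} (h : PBdd s) (h' : PBdd s') :
    PBdd (fun x => Max.max (s x) (s' x)) :=
  (h.add h').of_le fun _ => max_le (Nat.le_add_right _ _) (Nat.le_add_left _ _)

theorem PBdd.eval {s : α → ℕ} (h : PBdd s) (P : Polynomial ℕ) :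
    PBdd (fun x => P.eval (s x)) := by
  obtain ⟨Q, hQ⟩ := h
  exact ⟨P.comp Q, fun x => by
    rw [Polynomial.eval_comp]
    exact eval_mono P (hQ x)⟩

theorem PBdd.comp {s : β → ℕ} {f : α → β} (h : PBdd s) (hf : PBdd (fun x => sz (f x))) :
    PBdd (fun x => s (f x)) := by
  obtain ⟨P, hP⟩ := h
  exact (hf.eval P).of_le fun x => hP (f x)

theorem PolyTime.mk {f : α → β} (p : Cmd) {s : α → ℕ} (hs : PBdd s)
    (h : ∀ (x : α) (a b c d : List Bool),
      Exec p ⟨code x ++ a, b, c, d⟩ ⟨code (f x) ++ a, b, c, d⟩ (s x)) : PolyTime f := by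
  obtain ⟨P, hP⟩ := hs
  exact ⟨p, P, fun x a b c d => (h x a b c d).mono (hP x)⟩

/-- The output of a polynomial-time function has polynomial size. -/
theorem PolyTime.pbdd {f : α → β} (hf : PolyTime f) : PBdd (fun x => sz (f x)) := by
  obtain ⟨p, P, h⟩ := hf
  refine (PBdd.size.add (PBdd.size.eval P)).of_le fun x => ?_
  have := (h x [] [] [] []).len_le
  simp only [St.len, List.append_nil, List.length_nil, Nat.add_zero] at this
  exact this

theorem PolyTime.pbdd_comp {s : β → ℕ} {f : α → β} (hs : PBdd s) (hf : PolyTime f) :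
    PBdd (fun x => s (f x)) := hs.comp hf.pbdd

theorem PolyTime.of_toD {f : α → β} (h : ∀ x, Enc.toD (f x) = Enc.toD x) : PolyTime f := by
  refine PolyTime.mk .skip (PBdd.const 1) fun x a b c d => ?_
  have : code (f x) = code x := by rw [code, code, h]
  rw [this]
  exact Exec.skip _

@[fun_prop]
theorem PolyTime.id : PolyTime (fun x : α => x) := PolyTime.of_toD fun _ => rfl

@[fun_prop]
theorem PolyTime.comp {g : β → γ} {f : α → β} (hg : PolyTime g) (hf : PolyTime f) :
    PolyTime (fun x => g (f x)) := by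
  have hb := hf.pbdd
  obtain ⟨p, P, hp⟩ := hf
  obtain ⟨q, Q, hq⟩ := hg
  refine PolyTime.mk (.seq p q) (s := fun x => P.eval (sz x) + Q.eval (sz (f x)) + 1)
    (((PBdd.size.eval P).add (hb.eval Q)).add (PBdd.const 1)) fun x a b c d => ?_
  exact (hp x a b c d).seq (hq (f x) a b c d)

theorem PolyTime.congr_toD {f : α → β} {g : α → γ} (hf : PolyTime f)
    (h : ∀ x, Enc.toD (g x) = Enc.toD (f x)) : PolyTime g := by
  obtain ⟨p, P, hp⟩ := hf
  refine ⟨p, P, fun x a b c d => ?_⟩
  have : code (g x) = code (f x) := by rw [code, code, h]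
  rw [this]
  exact hp x a b c d

theorem PolyTime.congr {f g : α → β} (hf : PolyTime f) (h : ∀ x, g x = f x) : PolyTime g :=
  hf.congr_toD fun x => by rw [h]

@[fun_prop]
theorem PolyTime.const (y : β) : PolyTime (fun _ : α => y) := by
  refine PolyTime.mk (.seq dropA (pushList (code y)))
    (s := fun x => 5 * sz x + 5 + (2 * (code y).length + 1) + 1)
    ?_ fun x a b c d => ?_
  · fun_prop
  · exact (dropA_exec _ a b c d).seq (pushList_exec _ a b c d)

instance instEncDt : Enc Dt := ⟨fun x => x, fun _ _ h => h⟩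

instance instEncUnit : Enc Unit := ⟨fun _ => .nil, fun _ _ _ => rfl⟩

instance instEncProd : Enc (α × β) where
  toD := fun p => .cons (Enc.toD p.1) (Enc.toD p.2)
  inj := by
    rintro ⟨a, b⟩ ⟨a', b'⟩ h
    simp only [Dt.cons.injEq] at h
    rw [Enc.inj h.1, Enc.inj h.2]

@[simp] theorem toD_prod (p : α × β) : Enc.toD p = .cons (Enc.toD p.1) (Enc.toD p.2) := rfl

theorem code_prod (p : α × β) : code p = true :: (code p.1 ++ code p.2) := rfl

@[simp] theorem sz_prod (p : α × β) : sz p = sz p.1 + sz p.2 + 1 := by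
  rw [sz, code_prod, List.length_cons, List.length_append]
  rfl

theorem sz_pos (x : α) : 0 < sz x := Dt.enc_length_pos _

@[fun_prop]
theorem PolyTime.pair {f : α → β} {g : α → γ} (hf : PolyTime f) (hg : PolyTime g) :
    PolyTime (fun x => (f x, g x)) := by
  have hbf := hf.pbdd
  have hbg := hg.pbdd
  obtain ⟨p, P, hp⟩ := hf
  obtain ⟨q, Q, hq⟩ := hg
  refine PolyTime.mk (.seq dupA (.seq p (.seq swapA (.seq q (.seq swapA (.push .A true))))))
    (s := fun x => (24 * sz x + 17) + (P.eval (sz x) + ((22 * (sz (f x) + sz x) + 40) +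
      (Q.eval (sz x) + ((22 * (sz (g x) + sz (f x)) + 40) + 1 + 1) + 1) + 1) + 1) + 1)
    ?_ fun x a b c d => ?_
  · have h1 := (PBdd.size (α := α)).eval P
    have h2 := (PBdd.size (α := α)).eval Q
    fun_prop
  · have h1 := dupA_exec (Enc.toD x) a b c d
    have h2 := hp x (code x ++ a) b c d
    have h3 := swapA_exec (Enc.toD (f x)) (Enc.toD x) a b c d
    have h4 := hq x (code (f x) ++ a) b c d
    have h5 := swapA_exec (Enc.toD (g x)) (Enc.toD (f x)) a b c d
    have h6 := Exec.pushA true (code (f x) ++ (code (g x) ++ a)) b c d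
    have h := h1.seq (h2.seq (h3.seq (h4.seq (h5.seq h6))))
    have e : code (f x, g x) ++ a = true :: (code (f x) ++ (code (g x) ++ a)) := by
      simp [code_prod]
    rw [e]
    exact h

theorem PolyTime.of_fst {f : α → β} (h : ∀ x, ∃ q, Enc.toD x = .cons (Enc.toD (f x)) q) :
    PolyTime f := by
  refine PolyTime.mk (.case .A .skip .skip (.seq parseAB (.seq dropA flBA)))
    (s := fun x => (9 * sz x + 7) + ((5 * sz x + 5) + (3 * sz x + 1) + 1) + 1 + 1)
    ?_ fun x a b c d => ?_
  · fun_prop
  · obtain ⟨q, hq⟩ := h x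
    have e : code x ++ a = true :: (code (f x) ++ (q.enc ++ a)) := by
      simp [code, hq]
    have hs : sz x = sz (f x) + q.enc.length + 1 := by
      simp [sz, code, hq]
    rw [e]
    refine Exec.caseTrue rfl ?_
    have h1 := parseAB_exec (Enc.toD (f x)) (q.enc ++ a) b c d
    have h2 := dropA_exec q a (fl (Enc.toD (f x)).enc.reverse b) c d
    have h3 := flBA_exec (Enc.toD (f x)).enc.reverse a b c d
    have h := h1.seq (h2.seq h3)
    simp only [List.reverse_reverse, List.length_reverse] at h
    refine h.mono ?_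
    have e2 : (Enc.toD (f x)).enc.length = sz (f x) := rfl
    rw [e2]
    omega

theorem PolyTime.of_snd {f : α → β} (h : ∀ x, ∃ q, Enc.toD x = .cons q (Enc.toD (f x))) :
    PolyTime f := by
  refine PolyTime.mk (.case .A .skip .skip dropA)
    (s := fun x => (5 * sz x + 5) + 1)
    ?_ fun x a b c d => ?_
  · fun_prop
  · obtain ⟨q, hq⟩ := h x
    have e : code x ++ a = true :: (q.enc ++ (code (f x) ++ a)) := by
      simp [code, hq]
    have hs : sz x = q.enc.length + sz (f x) + 1 := by
      simp [sz, code, hq]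
    rw [e]
    refine Exec.caseTrue rfl ?_
    refine (dropA_exec q _ b c d).mono ?_
    omega

theorem PolyTime.fst' : PolyTime (fun p : α × β => p.1) := PolyTime.of_fst fun _ => ⟨_, rfl⟩

theorem PolyTime.snd' : PolyTime (fun p : α × β => p.2) := PolyTime.of_snd fun _ => ⟨_, rfl⟩

@[fun_prop]
theorem PolyTime.fst {f : α → β × γ} (hf : PolyTime f) : PolyTime (fun x => (f x).1) :=
  PolyTime.fst'.comp hf

@[fun_prop]
theorem PolyTime.snd {f : α → β × γ} (hf : PolyTime f) : PolyTime (fun x => (f x).2) :=
  PolyTime.snd'.comp hf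

end poly

section branch

variable {α β γ δ ε : Type*} [Enc α] [Enc β] [Enc γ] [Enc δ] [Enc ε]

/-- General case analysis on whether the code of `t x` is `nil` or a `cons`. -/
theorem PolyTime.branch {t : α → γ} {f h : α → β} {g : α × δ → β}
    (ht : PolyTime t) (hf : PolyTime f) (hg : PolyTime g)
    (H : ∀ x, (Enc.toD (t x) = .nil ∧ h x = f x) ∨
      (∃ y : δ, Enc.toD (t x) = Enc.toD y ∧ Enc.toD y ≠ .nil ∧ h x = g (x, y))) :
    PolyTime h := by
  have hbt := ht.pbdd
  obtain ⟨p, P, hp⟩ := ht
  obtain ⟨q, Q, hq⟩ := hf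
  obtain ⟨r, R, hr⟩ := hg
  refine PolyTime.mk (.seq dupA (.seq p (.case .A .skip q
      (.seq (.push .A true) (.seq swapA (.seq (.push .A true) r))))))
    (s := fun x => (24 * sz x + 17) + (P.eval (sz x) + (Q.eval (sz x) +
      (1 + ((22 * (sz (t x) + sz x) + 40) + (1 + R.eval (sz x + sz (t x) + 1) + 1) + 1) + 1)
        + 1) + 1) + 1)
    ?_ fun x a b c d => ?_
  · have h1 := (PBdd.size (α := α)).eval P
    have h2 := (PBdd.size (α := α)).eval Q
    have h3 := PBdd.eval (α := α) (s := fun x => sz x + sz (t x) + 1) (by fun_prop) R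
    fun_prop
  · have h1 := dupA_exec (Enc.toD x) a b c d
    have h2 := hp x (code x ++ a) b c d
    rcases H x with ⟨hn, hh⟩ | ⟨y, hy, hne, hh⟩
    · rw [hh]
      have e : code (t x) = [false] := by rw [code, hn]; rfl
      rw [e] at h2
      have h3 := hq x a b c d
      have h4 : Exec (.case .A .skip q
        (.seq (.push .A true) (.seq swapA (.seq (.push .A true) r))))
          ⟨false :: (code x ++ a), b, c, d⟩ ⟨code (f x) ++ a, b, c, d⟩ _ :=
        Exec.caseFalse rfl h3
      refine (h1.seq (h2.seq h4)).mono ?_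
      change (24 * sz x + 17) + _ + 1 ≤ _
      omega
    · rw [hh]
      have e1 : code (t x) = code y := by rw [code, code, hy]
      have e2 : sz (t x) = sz y := by rw [sz, sz, e1]
      rw [e1] at h2
      obtain ⟨w, hw⟩ : ∃ w, code y = true :: w := by
        cases hyc : Enc.toD y with
        | nil => exact absurd hyc hne
        | cons u v => exact ⟨_, by rw [code, hyc]; rfl⟩
      have h3 := Exec.pushA true (w ++ (code x ++ a)) b c d
      have h5 := swapA_exec (Enc.toD y) (Enc.toD x) a b c d
      have h6 := Exec.pushA true (code x ++ (code y ++ a)) b c d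
      have h7 := hr (x, y) a b c d
      have e3 : code (x, y) ++ a = true :: (code x ++ (code y ++ a)) := by simp [code_prod]
      rw [e3] at h7
      have e4 : (Enc.toD y).enc ++ ((Enc.toD x).enc ++ a) = true :: (w ++ (code x ++ a)) := by
        change code y ++ _ = _
        rw [hw]
        rfl
      rw [e4] at h5
      have h8 : Exec (.case .A .skip q
        (.seq (.push .A true) (.seq swapA (.seq (.push .A true) r))))
          ⟨true :: (w ++ (code x ++ a)), b, c, d⟩ ⟨code (g (x, y)) ++ a, b, c, d⟩ _ :=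
        Exec.caseTrue rfl (h3.seq (h5.seq (h6.seq h7)))
      have e5 : code y ++ (code x ++ a) = true :: (w ++ (code x ++ a)) := by
        rw [hw]; rfl
      rw [e5] at h2
      refine (h1.seq (h2.seq h8)).mono ?_
      have e6 : (Enc.toD y).enc.length = sz y := rfl
      have e7 : (Enc.toD x).enc.length = sz x := rfl
      rw [e2, e6, e7, sz_prod]
      simp only
      omega

instance instEncBool : Enc Bool where
  toD := fun x => cond x (.cons .nil .nil) .nil
  inj := by intro x y h; cases x <;> cases y <;> simp_all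

@[simp] theorem toD_true : Enc.toD true = .cons .nil .nil := rfl
@[simp] theorem toD_false : Enc.toD false = .nil := rfl

theorem sz_bool (x : Bool) : sz x ≤ 3 := by cases x <;> decide

theorem PolyTime.cond {t : α → Bool} {f g : α → β} (ht : PolyTime t) (hf : PolyTime f)
    (hg : PolyTime g) : PolyTime (fun x => bif t x then f x else g x) := by
  refine PolyTime.branch (γ := Bool) (δ := Bool) (t := t) (f := g) (g := fun p => f p.1) ht hg
    (hf.comp PolyTime.fst') fun x => ?_
  cases h : t x
  · left; simp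
  · right; exact ⟨true, by simp, by simp, by simp⟩

/-- Conditional with a decidable condition. -/
theorem PolyTime.ite {P : α → Prop} [DecidablePred P] {f g : α → β}
    (ht : PolyTime (fun x => decide (P x))) (hf : PolyTime f)
    (hg : PolyTime g) : PolyTime (fun x => if P x then f x else g x) :=
  (ht.cond hf hg).congr fun x => by
    by_cases h : P x <;> simp [h]

end branch

section nat

variable {α β γ δ ε : Type*} [Enc α] [Enc β] [Enc γ] [Enc δ] [Enc ε]

/-- unary code of a natural number -/
def natD : ℕ → Dt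
  | 0 => .nil
  | n + 1 => .cons .nil (natD n)

theorem natD_inj : Function.Injective natD := by
  intro m
  induction m with
  | zero => intro n h; cases n <;> simp_all [natD]
  | succ m ih =>
    intro n h
    cases n with
    | zero => simp [natD] at h
    | succ n => simp only [natD, Dt.cons.injEq, true_and] at h; rw [ih h]

/-- Natural numbers are coded in unary. -/
instance instEncNat : Enc ℕ := ⟨natD, natD_inj⟩

@[simp] theorem toD_zero : Enc.toD (0 : ℕ) = .nil := rfl
@[simp] theorem toD_succ (n : ℕ) : Enc.toD (n + 1) = .cons .nil (Enc.toD n) := rfl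

@[simp] theorem sz_nat (n : ℕ) : sz n = 2 * n + 1 := by
  induction n with
  | zero => rfl
  | succ n ih =>
    have : sz (n + 1) = sz n + 2 := by
      simp [sz, code]
    omega

@[fun_prop]
theorem PolyTime.succ {f : α → ℕ} (hf : PolyTime f) : PolyTime (fun x => f x + 1) :=
  (PolyTime.pair (PolyTime.const ()) hf).congr_toD fun _ => rfl

theorem PolyTime.natCases {n : α → ℕ} {f : α → β} {g : α → ℕ → β} (hn : PolyTime n)
    (hf : PolyTime f) (hg : PolyTime (fun p : α × ℕ => g p.1 p.2)) :
    PolyTime (fun x => Nat.casesOn (motive := fun _ => β) (n x) (f x) (g x)) := by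
  refine PolyTime.branch (γ := ℕ) (δ := Unit × ℕ) (t := n) (f := f)
    (g := fun p => g p.1 p.2.2) hn hf ?_ fun x => ?_
  · exact hg.comp (PolyTime.fst'.pair (PolyTime.snd'.comp PolyTime.snd'))
  · cases h : n x
    · left; simp
    · right; exact ⟨((), _), rfl, by simp, rfl⟩

/-- The number of iterations moved to the counter stack. -/
theorem toCounter_exec (n : ℕ) : ∀ (a b c d : List Bool),
    Exec (.loop .A (.case .A .skip (.push .C true) .skip))
      ⟨code n ++ a, b, c, d⟩ ⟨a, b, List.replicate n true ++ c, d⟩ (3 * n + 1) := by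
  induction n with
  | zero => intro a b c d; exact Exec.loopFalse rfl
  | succ n ih =>
    intro a b c d
    have h1 := ih a b (true :: c) d
    have h2 : Exec (.case .A .skip (.push .C true) .skip)
        ⟨false :: (code n ++ a), b, c, d⟩ ⟨code n ++ a, b, true :: c, d⟩ 2 :=
      Exec.caseFalse rfl (Exec.pushC _ _ _ _ _)
    have h3 := Exec.loopTrue (k := .A) (S := ⟨true :: false :: (code n ++ a), b, c, d⟩) rfl h2 h1
    have e : List.replicate n true ++ true :: c = List.replicate (n + 1) true ++ c := by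
      rw [List.replicate_succ', List.append_assoc]; rfl
    rw [e] at h3
    exact h3.mono (by omega)

theorem iterLoop_exec {f : β → β} {p : Cmd} {P : Polynomial ℕ}
    (hp : ∀ (x : β) (a b c d : List Bool),
      Exec p ⟨code x ++ a, b, c, d⟩ ⟨code (f x) ++ a, b, c, d⟩ (P.eval (sz x))) (s : ℕ) (n : ℕ) :
    ∀ (y : β), (∀ i < n, sz (f^[i] y) ≤ s) → ∀ (a b c d : List Bool),
      Exec (.loop .C p) ⟨code y ++ a, b, List.replicate n true ++ false :: c, d⟩
        ⟨code (f^[n] y) ++ a, b, c, d⟩ (n * (P.eval s + 1) + 1) := by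
  induction n with
  | zero =>
    intro y _ a b c d
    exact (Exec.loopFalse rfl).mono (by simp)
  | succ n ih =>
    intro y hs a b c d
    have h0 := hs 0 (Nat.succ_pos _)
    have h1 := ih (f y) (fun i hi => by
      have := hs (i + 1) (by omega)
      rwa [Function.iterate_succ_apply] at this) a b c d
    have h2 := hp y a b (List.replicate n true ++ false :: c) d
    have h3 := Exec.loopTrue (k := .C)
      (S := ⟨code y ++ a, b, true :: (List.replicate n true ++ false :: c), d⟩) rfl h2 h1
    rw [Function.iterate_succ_apply]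
    refine h3.mono ?_
    have := eval_mono P h0
    simp only [Function.iterate_zero, id_eq] at this
    calc P.eval (sz y) + (n * (P.eval s + 1) + 1) + 1
        ≤ P.eval s + (n * (P.eval s + 1) + 1) + 1 := by omega
      _ = (n + 1) * (P.eval s + 1) + 1 := by ring

/-- Bounded iteration: if all iterates have size bounded by a polynomial in the size of `x`,
then `x ↦ f^[n x] (g x)` is polynomial time. -/
theorem PolyTime.iterate {f : β → β} {n : α → ℕ} {g : α → β} (hf : PolyTime f)
    (hn : PolyTime n) (hg : PolyTime g) {s : α → ℕ} (hs : PBdd s)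
    (hb : ∀ x, ∀ i < n x, sz (f^[i] (g x)) ≤ s x) :
    PolyTime (fun x => f^[n x] (g x)) := by
  have hbn := hn.pbdd
  have hbg := hg.pbdd
  obtain ⟨p, P, hp⟩ := hf
  obtain ⟨q, Q, hq⟩ := hn
  obtain ⟨r, R, hr⟩ := hg
  refine PolyTime.mk (.seq dupA (.seq q (.seq (.push .C false)
      (.seq (.loop .A (.case .A .skip (.push .C true) .skip)) (.seq r (.loop .C p))))))
    (s := fun x => (24 * sz x + 17) + (Q.eval (sz x) + (1 + ((3 * sz (n x) + 1) +
      (R.eval (sz x) + (sz (n x) * (P.eval (s x) + 1) + 1) + 1) + 1) + 1) + 1) + 1)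
    ?_ fun x a b c d => ?_
  · have h1 := (PBdd.size (α := α)).eval R
    have h2 := (PBdd.size (α := α)).eval Q
    have h3 := hs.eval P
    fun_prop
  · have h1 := dupA_exec (Enc.toD x) a b c d
    have h2 := hq x (code x ++ a) b c d
    have h3 := Exec.pushC false (code (n x) ++ (code x ++ a)) b c d
    have h4 := toCounter_exec (n x) (code x ++ a) b (false :: c) d
    have h5 := hr x a b (List.replicate (n x) true ++ false :: c) d
    have h6 := iterLoop_exec hp (s x) (n x) (g x) (hb x) a b c d
    refine (h1.seq (h2.seq (h3.seq (h4.seq (h5.seq h6))))).mono ?_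
    change (24 * sz x + 17) + _ + 1 ≤ _
    have h7 : n x ≤ sz (n x) := by rw [sz_nat]; omega
    have h8 : n x * (P.eval (s x) + 1) ≤ sz (n x) * (P.eval (s x) + 1) :=
      Nat.mul_le_mul_right _ h7
    omega

end nat

end Pool.Agent.PT
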